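import Pool.Agent.H.MP_b2838e_lc.Def

/-!
# Module Three: three and more pieces

Proof. Let `G m = max (g 0, .., g m)` (or the sum) and let the colour of `y` be `1` if
`G m₁ < m₂`, where `m₁`, `m₂` are the least `n` with `y n = 1`, `y n = 2` (`sInf`), and `0` otherwise.
It is continuous: `m₁` and `m₂` are determined by the values up to `m₂`. Let `x` be homogeneous and let
`1 ≤ a < b`. Let `y n = 1` if `x n = a`, `y n = x n - b + 2` if `b ≤ x n < b + k - 2` and `y n = 0`
otherwise. Then `y` is in `KPart k` and coarser than `x`, and `m₁`, `m₂` are the least elements of the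
pieces `a` and `b` of `x`. For `a = 1` and large `b` the colour is `1` (the least element of piece `b` is
at least `b`), so `j = 1`. For `a = i + 1`, `b = i + 2` it follows that the least element of piece `i + 2`
is larger than `G m₁ ≥ g i`, as `m₁ ≥ i + 1`.
-/

namespace Pool.Agent.DR

/-- The least element of the piece `a`. -/
private noncomputable def Three_L (x : ℕ → ℕ) (a : ℕ) : ℕ := sInf {n | x n = a}

private theorem Three_L_mem {x : ℕ → ℕ} {a : ℕ} (h : ∃ n, x n = a) : x (Three_L x a) = a :=
  Nat.sInf_mem (s := {n | x n = a}) h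

private theorem Three_L_le {x : ℕ → ℕ} {a n : ℕ} (h : x n = a) : Three_L x a ≤ n :=
  Nat.sInf_le (s := {n | x n = a}) h

private theorem Three_L_eq {x : ℕ → ℕ} {a m : ℕ} (h : x m = a) (h2 : ∀ n < m, x n ≠ a) :
    Three_L x a = m := by
  refine le_antisymm (Three_L_le h) ?_
  by_contra hcon
  push Not at hcon
  exact h2 _ hcon (Three_L_mem ⟨m, h⟩)

private theorem Three_le {x : ℕ → ℕ} (hx : InfPart x) : ∀ n, x n ≤ n := by
  intro n
  induction n using Nat.strong_induction_on with
  | _ n ih =>
    by_contra hcon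
    push Not at hcon
    obtain ⟨m, hm, hm2⟩ := hx.1 n n hcon
    have := ih m hm
    omega

/-- The coarser partition. -/
private def Three_y (x : ℕ → ℕ) (k a b : ℕ) (n : ℕ) : ℕ :=
  if x n = a then 1 else if b ≤ x n ∧ x n < b + k - 2 then x n - b + 2 else 0

private theorem Three_y_coarser (x : ℕ → ℕ) (k a b : ℕ) : Coarser (Three_y x k a b) x := by
  intro m n h
  unfold Three_y
  rw [h]

private theorem Three_y_one {x : ℕ → ℕ} {k a b n : ℕ} : Three_y x k a b n = 1 ↔ x n = a := by
  unfold Three_y
  split_ifs with h1 h2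
  · simp [h1]
  · constructor
    · intro h
      omega
    · intro h
      exact absurd h h1
  · constructor
    · intro h
      simp at h
    · intro h
      exact absurd h h1

private theorem Three_y_high {x : ℕ → ℕ} {k a b n i : ℕ} (hab : a < b) (hi : 2 ≤ i)
    (hik : i < k) : Three_y x k a b n = i ↔ x n = i + b - 2 := by
  unfold Three_y
  split_ifs with h1 h2 <;> constructor <;> intro h <;> omega

private theorem Three_y_zero {x : ℕ → ℕ} {k a b n : ℕ} (ha : 1 ≤ a) (hab : a < b)
    (h : x n = 0) : Three_y x k a b n = 0 := by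
  unfold Three_y
  split_ifs with h1 h2 <;> omega

private theorem Three_y_lt {x : ℕ → ℕ} {k a b n : ℕ} (hk : 3 ≤ k) : Three_y x k a b n < k := by
  unfold Three_y
  split_ifs with h1 h2 <;> omega

private theorem Three_y_part {x : ℕ → ℕ} (hx : InfPart x) {k a b : ℕ} (hk : 3 ≤ k) (ha : 1 ≤ a)
    (hab : a < b) : KPart k (Three_y x k a b) := by
  refine ⟨?_, fun n => Three_y_lt hk, ?_⟩
  · intro n i hi
    have hlt : Three_y x k a b n < k := Three_y_lt hk
    -- the value is at least one, so `x n` is positive
    obtain ⟨v, hv⟩ : ∃ v, v = Three_y x k a b n := ⟨_, rfl⟩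
    rw [← hv] at hi hlt
    have hxa : a ≤ x n := by
      rcases Nat.lt_or_ge v 2 with h2 | h2
      · have h1 : Three_y x k a b n = 1 := by omega
        rw [Three_y_one] at h1
        omega
      · have h3 := (Three_y_high (x := x) (n := n) hab h2 hlt).1 hv.symm
        omega
    rcases Nat.eq_zero_or_pos i with rfl | hi0
    · obtain ⟨m, hm, hm2⟩ := hx.1 n 0 (by omega)
      exact ⟨m, hm, Three_y_zero ha hab hm2⟩
    have h2 : 2 ≤ v := by omega
    have h3 := (Three_y_high (x := x) (n := n) hab h2 hlt).1 hv.symm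
    rcases Nat.lt_or_ge i 2 with h4 | h4
    · obtain ⟨m, hm, hm2⟩ := hx.1 n a (by omega)
      refine ⟨m, hm, ?_⟩
      have : i = 1 := by omega
      rw [this]
      exact Three_y_one.2 hm2
    · obtain ⟨m, hm, hm2⟩ := hx.1 n (i + b - 2) (by omega)
      exact ⟨m, hm, (Three_y_high hab h4 (by omega)).2 hm2⟩
  · intro i hi
    rcases Nat.eq_zero_or_pos i with rfl | hi0
    · obtain ⟨n, hn⟩ := hx.2 0
      exact ⟨n, Three_y_zero ha hab hn⟩
    rcases Nat.lt_or_ge i 2 with h4 | h4
    · obtain ⟨n, hn⟩ := hx.2 a
      have : i = 1 := by omega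
      rw [this]
      exact ⟨n, Three_y_one.2 hn⟩
    · obtain ⟨n, hn⟩ := hx.2 (i + b - 2)
      exact ⟨n, (Three_y_high hab h4 hi).2 hn⟩

theorem three (k : ℕ) (hk : 3 ≤ k) (g : ℕ → ℕ) : ∃ c : (ℕ → ℕ) → Fin 2, Cont k c ∧
    ∀ x j, Homog k c x j → ∀ i n, x n = i + 2 → g i < n := by
  classical
  obtain ⟨G, hG⟩ : ∃ G : ℕ → ℕ, G = fun m => ∑ i ∈ Finset.range (m + 1), g i := ⟨_, rfl⟩
  have hGg : ∀ i m, i ≤ m → g i ≤ G m := by
    intro i m him
    rw [hG]
    exact Finset.single_le_sum (f := g) (fun _ _ => Nat.zero_le _)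
      (Finset.mem_range.2 (by omega))
  obtain ⟨c, hc⟩ : ∃ c : (ℕ → ℕ) → Fin 2,
      c = fun y => if G (Three_L y 1) < Three_L y 2 then 1 else 0 := ⟨_, rfl⟩
  refine ⟨c, ?_, ?_⟩
  · intro y hy
    have h2 : y (Three_L y 2) = 2 := Three_L_mem (hy.2.2 2 (by omega))
    have h1 : y (Three_L y 1) = 1 := Three_L_mem (hy.2.2 1 (by omega))
    have h12 : Three_L y 1 < Three_L y 2 := by
      obtain ⟨m, hm, hm2⟩ := hy.1 (Three_L y 2) 1 (by omega)
      exact (Three_L_le hm2).trans_lt hm
    refine ⟨Three_L y 2 + 1, fun z hz hzy => ?_⟩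
    have e2 : Three_L z 2 = Three_L y 2 := by
      refine Three_L_eq ?_ fun n hn hz2 => ?_
      · rw [hzy _ (by omega), h2]
      · rw [hzy n (by omega)] at hz2
        have := Three_L_le hz2
        omega
    have e1 : Three_L z 1 = Three_L y 1 := by
      refine Three_L_eq ?_ fun n hn hz2 => ?_
      · rw [hzy _ (by omega), h1]
      · rw [hzy n (by omega)] at hz2
        have := Three_L_le hz2
        omega
    rw [hc]
    simp only [e1, e2]
  · intro x j hx i n hn
    have hxle := Three_le hx.1
    -- the colour of the coarser partitions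
    have hL1 : ∀ a b, Three_L (Three_y x k a b) 1 = Three_L x a := by
      intro a b
      unfold Three_L
      congr 1
      ext n
      exact Three_y_one
    have hL2 : ∀ a b, a < b → Three_L (Three_y x k a b) 2 = Three_L x b := by
      intro a b hab
      unfold Three_L
      congr 1
      ext n
      have := Three_y_high (x := x) (n := n) (i := 2) hab le_rfl (by omega : 2 < k)
      rw [show 2 + b - 2 = b by omega] at this
      exact this
    have hcol : ∀ a b, 1 ≤ a → a < b →
        (if G (Three_L x a) < Three_L x b then (1 : Fin 2) else 0) = j := by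
      intro a b ha hab
      have h := hx.2 (Three_y x k a b) (Three_y_part hx.1 hk ha hab) (Three_y_coarser x k a b)
      rw [hc] at h
      simp only [hL1, hL2 a b hab] at h
      exact h
    have hj : j = 1 := by
      have h := hcol 1 (G (Three_L x 1) + 2) le_rfl (by omega)
      have h3 : G (Three_L x 1) < Three_L x (G (Three_L x 1) + 2) := by
        have h4 := hxle (Three_L x (G (Three_L x 1) + 2))
        rw [Three_L_mem (hx.1.2 _)] at h4
        omega
      rw [if_pos h3] at h
      exact h.symm
    have h5 := hcol (i + 1) (i + 2) (by omega) (by omega)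
    rw [hj] at h5
    have h6 : G (Three_L x (i + 1)) < Three_L x (i + 2) := by
      by_contra hcon
      rw [if_neg hcon] at h5
      exact absurd h5 (by decide)
    have h7 := hxle (Three_L x (i + 1))
    rw [Three_L_mem (hx.1.2 _)] at h7
    have h8 := hGg i (Three_L x (i + 1)) (by omega)
    have h9 := Three_L_le hn
    omega

end Pool.Agent.DR
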