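import Pool.Agent.H.MP_b2838e_lc.Bas

/-!
# Module Cpt: compactness for labellings

Proof. Let `U = Filter.hyperfilter ℕ`. For every `D` the ultrafilter `U.map (fun K => g K D)` on
`Fin l` is principal (`Ultrafilter.eq_pure_of_finite`); this is `f D`. For finitely many `D` the set of
the `K` with `g K D = f D` and `n ≤ K` is in `U`, so not empty.
-/

namespace Pool.Agent.DR

theorem cpt {l : ℕ} (g : ℕ → Finset ℕ → Fin l) : ∃ f : Finset ℕ → Fin l,
    ∀ (T : Finset (Finset ℕ)) (n : ℕ), ∃ K ≥ n, ∀ D ∈ T, g K D = f D := by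
  have h1 : ∀ D : Finset ℕ, ∃ a : Fin l, ∀ᶠ K in (Filter.hyperfilter ℕ : Filter ℕ), g K D = a := by
    intro D
    obtain ⟨a, ha⟩ := Ultrafilter.eq_pure_of_finite
      ((Filter.hyperfilter ℕ).map (fun K => g K D))
    refine ⟨a, ?_⟩
    have h2 : ({a} : Set (Fin l)) ∈ (Filter.hyperfilter ℕ).map (fun K => g K D) := by
      rw [ha]
      exact Set.mem_singleton a
    exact h2
  choose f hf using h1
  refine ⟨f, fun T n => ?_⟩
  have h3 : ∀ᶠ K in (Filter.hyperfilter ℕ : Filter ℕ), ∀ D ∈ T, g K D = f D :=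
    (Filter.eventually_all_finset T).2 fun D _ => hf D
  have h4 : ∀ᶠ K in (Filter.hyperfilter ℕ : Filter ℕ), n ≤ K := by
    have h5 : (Filter.hyperfilter ℕ : Filter ℕ) ≤ Filter.atTop := by
      rw [← Nat.cofinite_eq_atTop]
      exact Filter.hyperfilter_le_cofinite
    exact h5 (Filter.eventually_ge_atTop n)
  obtain ⟨K, hK⟩ := (h4.and h3).exists
  exact ⟨K, hK.1, hK.2⟩

end Pool.Agent.DR
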