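import Pool.Agent.H.MP_b2838e_lc.Def

/-!
# Finite sets, blocks, families
-/

namespace Pool.Agent.DR

/-- The union of the sets `R i` with `i ∈ D`. -/
def RU (R : ℕ → Finset ℕ) (D : Finset ℕ) : Finset ℕ := D.biUnion R

/-- Block sequences. -/
def Blk (E : ℕ → Finset ℕ) : Prop :=
  (∀ i, (E i).Nonempty) ∧ ∀ i, ∀ a ∈ E i, ∀ b ∈ E (i + 1), a < b

/-- Families of disjoint nonempty finite sets in the order of their least elements. -/
def Fam (p : List (Finset ℕ)) : Prop :=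
  (∀ D ∈ p, D.Nonempty) ∧ p.Pairwise (fun A B => Disjoint A B ∧ ∃ a ∈ A, ∀ b ∈ B, a < b)

/-- `V` is a nonempty union of members of the family. -/
def IsUn (p : List (Finset ℕ)) (V : Finset ℕ) : Prop :=
  V.Nonempty ∧ (∀ v ∈ V, ∃ D ∈ p, v ∈ D) ∧ ∀ D ∈ p, ∀ a ∈ D, ∀ b ∈ D, a ∈ V → b ∈ V

/-- All unions of members have the label `j`. -/
def Mono {l : ℕ} (f : Finset ℕ → Fin l) (j : Fin l) (p : List (Finset ℕ)) : Prop :=
  ∀ V, IsUn p V → f V = j

/-- The partition with the pieces of the list. -/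
def wd (p : List (Finset ℕ)) (n : ℕ) : ℕ :=
  match p.findIdx? (fun q => decide (n ∈ q)) with
  | none => 0
  | some i => i + 1

/-- The functional gives the value `v` on the initial segment of length `n` and no answer before. -/
def FV (G : List ℕ → ℕ → Option ℕ) (x : ℕ → ℕ) (t n v : ℕ) : Prop :=
  G (pre x n) t = some v ∧ ∀ m < n, G (pre x m) t = none

theorem mem_RU {R : ℕ → Finset ℕ} {D : Finset ℕ} {n : ℕ} : n ∈ RU R D ↔ ∃ i ∈ D, n ∈ R i := by
  unfold RU
  rw [Finset.mem_biUnion]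

theorem RU_RU (R E : ℕ → Finset ℕ) (D : Finset ℕ) :
    RU (fun i => RU R (E i)) D = RU R (RU E D) := by
  ext n
  simp only [mem_RU]
  constructor
  · rintro ⟨i, hi, k, hk, hn⟩
    exact ⟨k, ⟨i, hi, hk⟩, hn⟩
  · rintro ⟨k, ⟨i, hi, hk⟩, hn⟩
    exact ⟨i, hi, k, hk, hn⟩

theorem Blk.lt {E : ℕ → Finset ℕ} (h : Blk E) {i k : ℕ} (hik : i < k) :
    ∀ a ∈ E i, ∀ b ∈ E k, a < b := by
  induction k, hik using Nat.le_induction with
  | base => exact h.2 i
  | succ k _ ih =>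
    intro a ha b hb
    obtain ⟨c, hc⟩ := h.1 k
    exact (ih a ha c hc).trans (h.2 k c hc b hb)

theorem Blk.le {E : ℕ → Finset ℕ} (h : Blk E) (i : ℕ) : ∀ a ∈ E i, i ≤ a := by
  induction i with
  | zero => exact fun a _ => Nat.zero_le a
  | succ i ih =>
    intro a ha
    obtain ⟨c, hc⟩ := h.1 i
    have h1 := ih c hc
    have h2 := h.2 i c hc a ha
    omega

theorem Blk.comp {R E : ℕ → Finset ℕ} (hR : Blk R) (hE : Blk E) : Blk (fun i => RU R (E i)) := by
  refine ⟨fun i => ?_, fun i a ha b hb => ?_⟩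
  · obtain ⟨k, hk⟩ := hE.1 i
    obtain ⟨n, hn⟩ := hR.1 k
    exact ⟨n, mem_RU.2 ⟨k, hk, hn⟩⟩
  · obtain ⟨k, hk, hn⟩ := mem_RU.1 ha
    obtain ⟨k', hk', hn'⟩ := mem_RU.1 hb
    exact hR.lt (hE.2 i k hk k' hk') a hn b hn'

theorem Blk.eq {E : ℕ → Finset ℕ} (h : Blk E) {i k n : ℕ} (hi : n ∈ E i) (hk : n ∈ E k) : i = k := by
  rcases lt_trichotomy i k with h1 | h1 | h1
  · exact absurd (h.lt h1 n hi n hk) (lt_irrefl n)
  · exact h1
  · exact absurd (h.lt h1 n hk n hi) (lt_irrefl n)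

theorem Fam.nil : Fam [] := ⟨fun D hD => absurd hD List.not_mem_nil, List.Pairwise.nil⟩

/-- The family of the unions of blocks. -/
theorem Fam.map {p : List (Finset ℕ)} (hp : Fam p) {E : ℕ → Finset ℕ} (hE : Blk E) :
    Fam (p.map (RU E)) := by
  refine ⟨fun D hD => ?_, ?_⟩
  · obtain ⟨A, hA, rfl⟩ := List.mem_map.1 hD
    obtain ⟨k, hk⟩ := hp.1 A hA
    obtain ⟨n, hn⟩ := hE.1 k
    exact ⟨n, mem_RU.2 ⟨k, hk, hn⟩⟩
  · rw [List.pairwise_map]
    refine hp.2.imp ?_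
    rintro A B ⟨h1, a, ha, h2⟩
    refine ⟨?_, ?_⟩
    · rw [Finset.disjoint_left]
      intro n hn hn'
      obtain ⟨i, hi, hn1⟩ := mem_RU.1 hn
      obtain ⟨k, hk, hn2⟩ := mem_RU.1 hn'
      have h3 := hE.eq hn1 hn2
      rw [h3] at hi
      exact (Finset.disjoint_left.1 h1) hi hk
    · obtain ⟨n, hn⟩ := hE.1 a
      refine ⟨n, mem_RU.2 ⟨a, ha, hn⟩, fun m hm => ?_⟩
      obtain ⟨k, hk, hm1⟩ := mem_RU.1 hm
      exact hE.lt (h2 k hk) n hn m hm1

/-- Families one after the other. -/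
theorem Fam.append {p q : List (Finset ℕ)} (hp : Fam p) (hq : Fam q)
    (h : ∀ A ∈ p, ∀ a ∈ A, ∀ B ∈ q, ∀ b ∈ B, a < b) : Fam (p ++ q) := by
  refine ⟨fun D hD => ?_, ?_⟩
  · rcases List.mem_append.1 hD with h1 | h1
    · exact hp.1 D h1
    · exact hq.1 D h1
  · rw [List.pairwise_append]
    refine ⟨hp.2, hq.2, fun A hA B hB => ⟨?_, ?_⟩⟩
    · rw [Finset.disjoint_left]
      intro n hn hn'
      exact lt_irrefl n (h A hA n hn B hB n hn')
    · obtain ⟨a, ha⟩ := hp.1 A hA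
      exact ⟨a, ha, fun b hb => h A hA a ha B hB b hb⟩

theorem wd_eq_zero {p : List (Finset ℕ)} {n : ℕ} (h : ∀ q ∈ p, n ∉ q) : wd p n = 0 := by
  unfold wd
  rw [List.findIdx?_eq_none_iff.2 (fun q hq => by simpa using h q hq)]

theorem wd_append {p q : List (Finset ℕ)} {n : ℕ} (h : ∀ D ∈ q, n ∉ D) :
    wd (p ++ q) n = wd p n := by
  have h1 : q.findIdx? (fun q => decide (n ∈ q)) = none :=
    List.findIdx?_eq_none_iff.2 (fun q hq => by simpa using h q hq)
  unfold wd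
  rw [List.findIdx?_append, h1]
  cases List.findIdx? (fun q => decide (n ∈ q)) p <;> rfl

/-- The number of the piece. -/
theorem wd_get {p : List (Finset ℕ)} (hp : Fam p) {i : ℕ} (hi : i < p.length) {n : ℕ}
    (hn : n ∈ p[i]) : wd p n = i + 1 := by
  have h1 : p.findIdx? (fun q => decide (n ∈ q)) = some i := by
    rw [List.findIdx?_eq_some_iff_getElem]
    refine ⟨hi, by simpa using hn, fun k hk => ?_⟩
    have h2 := (List.pairwise_iff_getElem.1 hp.2 k i (hk.trans hi) hi hk).1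
    have h3 := Finset.disjoint_right.1 h2 hn
    simpa using h3
  unfold wd
  rw [h1]

theorem wd_spec {p : List (Finset ℕ)} {n i : ℕ} (h : wd p n = i + 1) :
    ∃ hi : i < p.length, n ∈ p[i] := by
  unfold wd at h
  cases h1 : p.findIdx? (fun q => decide (n ∈ q)) with
  | none => rw [h1] at h; simp at h
  | some k =>
    rw [h1] at h
    have h2 : k = i := by simpa using h
    rw [h2, List.findIdx?_eq_some_iff_getElem] at h1
    obtain ⟨hi, h3, -⟩ := h1
    exact ⟨hi, by simpa using h3⟩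

theorem pre_congr {x y : ℕ → ℕ} {n : ℕ} (h : ∀ m < n, x m = y m) : pre x n = pre y n := by
  unfold pre
  refine List.map_congr_left fun m hm => h m (List.mem_range.1 hm)

theorem FV.congr {G : List ℕ → ℕ → Option ℕ} {x y : ℕ → ℕ} {t n v : ℕ} (h : FV G x t n v)
    (hxy : ∀ m < n, x m = y m) : FV G y t n v := by
  refine ⟨?_, fun m hm => ?_⟩
  · rw [← pre_congr hxy]
    exact h.1
  · rw [← pre_congr (fun k hk => hxy k (hk.trans hm))]
    exact h.2 m hm

end Pool.Agent.DR
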