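import Pool.Agent.H.MP_b2838e_lc.YN

/-!
# Module Bnd: the bound for the values

Proof. The hypothesis for `f` only depends on the labels of the nonempty sets of indices `D` with
`N ≤ a < K` for all `a ∈ D`: if `f` and `f'` agree on the subsets of `Finset.range K` and `Mono f' j q`,
where all members of `q` are subsets of `Finset.range K`, then `Mono f j q` (a union `V` of members is a
subset of `range K`). So it is enough to consider the labellings `f' D = if D ⊆ range K then h ⟨D, _⟩
else j0` with `h : {D // D ∈ (Finset.range K).powerset} → Fin l`, of which there are finitely many (`j0`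
is the label of a fixed set of indices above `N` and `K`, so that it is in `P`; if `f D ∈ P` fails for
`f'` take the value `0`). Let `B` be the sum over all `h` of the values `v` chosen for them.
-/

namespace Pool.Agent.DR

theorem bound {F : ℕ → List ℕ → ℕ → Option ℕ} {l : ℕ} {P : Finset (Fin l)}
    {p : Fin l → List (Finset ℕ)} {e : Fin l → ℕ} {N t : ℕ} {R : ℕ → Finset ℕ} {K : ℕ}
    (h : ∀ f : Finset ℕ → Fin l, (∀ D : Finset ℕ, D.Nonempty → (∀ a ∈ D, N ≤ a) → f D ∈ P) →
      ∃ j ∈ P, ∃ q, Fam q ∧ (∀ D ∈ q, ∀ a ∈ D, N ≤ a ∧ a < K) ∧ Mono f j q ∧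
        ∃ n v, FV (F (e j)) (wd (p j ++ q.map (RU R))) t n v) :
    ∃ B, Yes F P p e N t R K B := by
  classical
  rcases P.eq_empty_or_nonempty with hP | ⟨j0, hj0⟩
  · refine ⟨0, fun f hf => ?_⟩
    have h1 := hf {N} (Finset.singleton_nonempty N)
      (fun a ha => (Finset.mem_singleton.1 ha).ge)
    rw [hP] at h1
    exact absurd h1 (Finset.notMem_empty _)
  · let ex : ({D : Finset ℕ // D ∈ (Finset.range K).powerset} → Fin l) → Finset ℕ → Fin l :=
      fun g D => if hD : D ∈ (Finset.range K).powerset then g ⟨D, hD⟩ else j0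
    have key : ∀ g : ({D : Finset ℕ // D ∈ (Finset.range K).powerset} → Fin l), ∃ v : ℕ,
        (∀ D : Finset ℕ, D.Nonempty → (∀ a ∈ D, N ≤ a) → ex g D ∈ P) →
          ∃ j ∈ P, ∃ q, Fam q ∧ (∀ D ∈ q, ∀ a ∈ D, N ≤ a ∧ a < K) ∧ Mono (ex g) j q ∧
            ∃ n, FV (F (e j)) (wd (p j ++ q.map (RU R))) t n v := by
      intro g
      by_cases hg : ∀ D : Finset ℕ, D.Nonempty → (∀ a ∈ D, N ≤ a) → ex g D ∈ P
      · obtain ⟨j, hj, q, hq, hqK, hm, n, v, hv⟩ := h (ex g) hg
        exact ⟨v, fun _ => ⟨j, hj, q, hq, hqK, hm, n, hv⟩⟩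
      · exact ⟨0, fun h1 => absurd h1 hg⟩
    choose v hv using key
    obtain ⟨B, hB⟩ := (Set.finite_range v).bddAbove
    refine ⟨B, fun f hf => ?_⟩
    have h1 : ∀ D : Finset ℕ, D.Nonempty → (∀ a ∈ D, N ≤ a) →
        ex (fun D => f D.1) D ∈ P := by
      intro D hD hN
      by_cases hK : D ∈ (Finset.range K).powerset
      · simp only [ex, dif_pos hK]
        exact hf D hD hN
      · simp only [ex, dif_neg hK]
        exact hj0
    obtain ⟨j, hj, q, hq, hqK, hm, n, hn⟩ := hv (fun D => f D.1) h1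
    refine ⟨j, hj, q, hq, hqK, fun V hV => ?_, n, v (fun D => f D.1),
      hB (Set.mem_range_self _), hn⟩
    have h2 := hm V hV
    have h3 : V ∈ (Finset.range K).powerset := by
      rw [Finset.mem_powerset]
      intro a ha
      obtain ⟨D, hD, haD⟩ := hV.2.1 a ha
      exact Finset.mem_range.2 (hqK D hD a haD).2
    simpa only [ex, dif_pos h3] using h2

end Pool.Agent.DR
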