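import Mathlib

/-!
# Definitions used in the statement

Partitions of `ℕ` are functions `x : ℕ → ℕ`, the value at `n` being the number of the piece of `n`,
where the pieces are numbered by their least elements.
-/

namespace Pool.Agent.DR

/-- Partitions of `ℕ` into infinitely many pieces. -/
def InfPart (x : ℕ → ℕ) : Prop :=
  (∀ n, ∀ i < x n, ∃ m < n, x m = i) ∧ ∀ i, ∃ n, x n = i

/-- Partitions of `ℕ` into exactly `k` pieces. -/
def KPart (k : ℕ) (y : ℕ → ℕ) : Prop :=
  (∀ n, ∀ i < y n, ∃ m < n, y m = i) ∧ (∀ n, y n < k) ∧ ∀ i < k, ∃ n, y n = i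

/-- Every piece of `x` is contained in a piece of `y`. -/
def Coarser (y x : ℕ → ℕ) : Prop := ∀ m n, x m = x n → y m = y n

/-- The colouring of the partitions into `k` pieces is continuous: the colour of `y` is determined by
finitely many values of `y`. -/
def Cont (k : ℕ) {l : ℕ} (c : (ℕ → ℕ) → Fin l) : Prop :=
  ∀ y, KPart k y → ∃ m, ∀ z, KPart k z → (∀ n < m, z n = y n) → c z = c y

/-- The partition `x` has infinitely many pieces and all partitions into `k` pieces which are coarser
than `x` have the colour `j`. -/
def Homog (k : ℕ) {l : ℕ} (c : (ℕ → ℕ) → Fin l) (x : ℕ → ℕ) (j : Fin l) : Prop :=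
  InfPart x ∧ ∀ y, KPart k y → Coarser y x → c y = j

/-- The list of the first `n` values. -/
def pre (x : ℕ → ℕ) (n : ℕ) : List ℕ := (List.range n).map x

/-- The functional `G` at `x` has the value `v` at the argument `t`: it is found on the shortest
initial segment of `x` for which `G` gives an answer. -/
def Val (G : List ℕ → ℕ → Option ℕ) (x : ℕ → ℕ) (t v : ℕ) : Prop :=
  ∃ n, G (pre x n) t = some v ∧ ∀ m < n, G (pre x m) t = none

end Pool.Agent.DR
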