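import Pool.Agent.H.MP_b2838e_lc.Hin
import Pool.Agent.H.MP_b2838e_lc.Cpt
import Pool.Agent.H.MP_b2838e_lc.Bnd

/-!
# Module Dich: the dichotomy

Proof. If there is no `K` as in `bound`, choose for every `K` a labelling `g K` without such a family
(all its labels of nonempty sets above `N` in `P`), and let `f` be as in `cpt`. Its labels of nonempty
sets above `N` are in `P` too. Let `E`, `j` be as in `hind f N`; `j ∈ P` (take `S = {0}`). For a family
`q` the family `q.map (RU E)` (`Fam.map`) has all its unions of label `j`: a union `V` is `RU E S` with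
`S` the set of the `i` in a member of `q` with `E i ⊆ V`. If `F (e j) (pre (wd (p j ++ q.map (RU R'))) n) t`
is not `none` for some `n`, take the least such `n` (`Nat.find`), so `FV` holds; note
`q.map (RU R') = (q.map (RU E)).map (RU R)` by `RU_RU`. Choose `K` above all indices in `q.map (RU E)`
with `g K V = f V` for all subsets `V` of the union of the members of `q.map (RU E)`; this contradicts the
choice of `g K`.
-/

namespace Pool.Agent.DR

private theorem Dich_un {q : List (Finset ℕ)} {E : ℕ → Finset ℕ} {V : Finset ℕ}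
    (hV : IsUn (q.map (RU E)) V) : ∃ S : Finset ℕ, S.Nonempty ∧ RU E S = V := by
  classical
  obtain ⟨h1, h2, h3⟩ := hV
  let S : Finset ℕ := (q.toFinset.biUnion id).filter fun i => E i ⊆ V
  have hS : RU E S = V := by
    ext v
    rw [mem_RU]
    constructor
    · rintro ⟨i, hi, hv⟩
      exact (Finset.mem_filter.1 hi).2 hv
    · intro hv
      obtain ⟨D', hD', hvD⟩ := h2 v hv
      obtain ⟨D, hD, rfl⟩ := List.mem_map.1 hD'
      obtain ⟨i, hi, hvi⟩ := mem_RU.1 hvD
      refine ⟨i, Finset.mem_filter.2 ⟨?_, fun b hb => ?_⟩, hvi⟩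
      · exact Finset.mem_biUnion.2 ⟨D, List.mem_toFinset.2 hD, hi⟩
      · exact h3 _ hD' v hvD b (mem_RU.2 ⟨i, hi, hb⟩) hv
  refine ⟨S, ?_, hS⟩
  obtain ⟨v, hv⟩ := h1
  rw [← hS, mem_RU] at hv
  obtain ⟨i, hi, -⟩ := hv
  exact ⟨i, hi⟩

theorem dich (F : ℕ → List ℕ → ℕ → Option ℕ) {l : ℕ} (P : Finset (Fin l))
    (p : Fin l → List (Finset ℕ)) (e : Fin l → ℕ) (N t : ℕ) (R : ℕ → Finset ℕ) :
    (∃ K B, Yes F P p e N t R K B) ∨ ∃ R', No F P p e N t R R' := by
  classical
  by_cases h : ∃ K, ∀ f : Finset ℕ → Fin l,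
      (∀ D : Finset ℕ, D.Nonempty → (∀ a ∈ D, N ≤ a) → f D ∈ P) →
      ∃ j ∈ P, ∃ q, Fam q ∧ (∀ D ∈ q, ∀ a ∈ D, N ≤ a ∧ a < K) ∧ Mono f j q ∧
        ∃ n v, FV (F (e j)) (wd (p j ++ q.map (RU R))) t n v
  · obtain ⟨K, hK⟩ := h
    exact Or.inl ⟨K, bound hK⟩
  · right
    push Not at h
    choose g hg1 hg2 using h
    obtain ⟨f, hf⟩ := cpt g
    have hfP : ∀ D : Finset ℕ, D.Nonempty → (∀ a ∈ D, N ≤ a) → f D ∈ P := by
      intro D hD hN
      obtain ⟨K, -, hK⟩ := hf {D} 0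
      rw [← hK D (Finset.mem_singleton_self D)]
      exact hg1 K D hD hN
    obtain ⟨E, hE, hN, j, hj⟩ := hind f N
    have hjP : j ∈ P := by
      rw [← hj {0} (Finset.singleton_nonempty 0)]
      obtain ⟨k, hk⟩ := hE.1 0
      refine hfP _ ⟨k, mem_RU.2 ⟨0, Finset.mem_singleton_self 0, hk⟩⟩ fun a ha => ?_
      obtain ⟨i, -, ha'⟩ := mem_RU.1 ha
      exact hN i a ha'
    refine ⟨fun i => RU R (E i), E, hE, hN, rfl, j, hjP, fun q hq n => ?_⟩
    by_contra hne
    have hex : ∃ n, F (e j) (pre (wd (p j ++ q.map (RU fun i => RU R (E i)))) n) t ≠ none :=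
      ⟨n, hne⟩
    obtain ⟨v, hv⟩ := Option.ne_none_iff_exists'.1 (Nat.find_spec hex)
    obtain ⟨m0, hFV⟩ : ∃ m0, FV (F (e j)) (wd (p j ++ q.map (RU fun i => RU R (E i)))) t m0 v :=
      ⟨Nat.find hex, hv, fun m hm => not_not.1 (Nat.find_min hex hm)⟩
    have hmap : q.map (RU fun i => RU R (E i)) = (q.map (RU E)).map (RU R) := by
      rw [List.map_map]
      exact List.map_congr_left fun D _ => RU_RU R E D
    rw [hmap] at hFV
    let U : Finset ℕ := (q.map (RU E)).toFinset.biUnion id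
    have hU : ∀ D ∈ q.map (RU E), ∀ a ∈ D, a ∈ U := fun D hD a ha =>
      Finset.mem_biUnion.2 ⟨D, List.mem_toFinset.2 hD, ha⟩
    obtain ⟨K, hK, hgK⟩ := hf U.powerset (U.sup id + 1)
    refine hg2 K j hjP (q.map (RU E)) (hq.map hE) ?_ ?_ _ _ hFV
    · intro D hD a ha
      have h1 : a ≤ U.sup id := Finset.le_sup (f := id) (hU D hD a ha)
      refine ⟨?_, by omega⟩
      obtain ⟨A, -, rfl⟩ := List.mem_map.1 hD
      obtain ⟨i, -, ha'⟩ := mem_RU.1 ha
      exact hN i a ha'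
    · intro V hV
      have h1 : V ⊆ U := fun a ha => by
        obtain ⟨D, hD, haD⟩ := hV.2.1 a ha
        exact hU D hD a haD
      rw [hgK V (Finset.mem_powerset.2 h1)]
      obtain ⟨S, hS, hSV⟩ := Dich_un hV
      rw [← hSV]
      exact hj S hS

end Pool.Agent.DR
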