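import Pool.Agent.H.MP_b2838e_lc.Bas

/-!
# Module Hin: Hindman's theorem for finite unions

Proof. Let `M = Option (Finset ℕ)` with the product `some A * some B = some (A ∪ B)` if `A` and `B` are
nonempty and all elements of `A` are smaller than those of `B`, and `none` otherwise; this is a
semigroup. For the stream `a n = some {n}` all members of `FP a` are `some D` with `D` nonempty.
`Hindman.FP_partition_regular` gives a stream `b` with `FP b` inside one class `{some D | D nonempty,
f D = j}`. Put `b n = some (E n)`; since `b n * b (n + 1) ∈ FP b` is not `none`, `E` is a block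
sequence, and `some (RU E S) ∈ FP (b.drop (min S))` for all nonempty `S` (induction). Then drop the
first `N` blocks (use `Blk.le`).
-/

namespace Pool.Agent.DR

/-- The semigroup of the proof. -/
def Hin_M : Type := Option (Finset ℕ)

/-- `A` is before `B`. -/
def Hin_R (A B : Finset ℕ) : Prop := A.Nonempty ∧ B.Nonempty ∧ ∀ a ∈ A, ∀ b ∈ B, a < b

open Classical in
/-- The product. -/
noncomputable def Hin_mul (x y : Option (Finset ℕ)) : Option (Finset ℕ) :=
  match x, y with
  | some A, some B => if Hin_R A B then some (A ∪ B) else none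
  | _, _ => none

theorem Hin_some {A B : Finset ℕ} (h : Hin_R A B) : Hin_mul (some A) (some B) = some (A ∪ B) := by
  unfold Hin_mul
  exact if_pos h

theorem Hin_not {A B : Finset ℕ} (h : ¬ Hin_R A B) : Hin_mul (some A) (some B) = none := by
  unfold Hin_mul
  exact if_neg h

theorem Hin_none (x : Option (Finset ℕ)) : Hin_mul x none = none := by
  cases x <;> rfl

theorem Hin_none' (x : Option (Finset ℕ)) : Hin_mul none x = none := by
  cases x <;> rfl

theorem Hin_assoc (x y z : Option (Finset ℕ)) :
    Hin_mul (Hin_mul x y) z = Hin_mul x (Hin_mul y z) := by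
  cases x with
  | none => rw [Hin_none', Hin_none', Hin_none']
  | some A =>
    cases y with
    | none => rw [Hin_none, Hin_none', Hin_none]
    | some B =>
      cases z with
      | none => rw [Hin_none, Hin_none, Hin_none]
      | some C =>
        by_cases h1 : Hin_R A B
        · by_cases h2 : Hin_R B C
          · have h3 : Hin_R (A ∪ B) C := by
              refine ⟨h1.1.mono Finset.subset_union_left, h2.2.1, fun a ha c hc => ?_⟩
              rcases Finset.mem_union.1 ha with h | h
              · obtain ⟨b, hb⟩ := h1.2.1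
                exact (h1.2.2 a h b hb).trans (h2.2.2 b hb c hc)
              · exact h2.2.2 a h c hc
            have h4 : Hin_R A (B ∪ C) := by
              refine ⟨h1.1, h1.2.1.mono Finset.subset_union_left, fun a ha c hc => ?_⟩
              rcases Finset.mem_union.1 hc with h | h
              · exact h1.2.2 a ha c h
              · obtain ⟨b, hb⟩ := h1.2.1
                exact (h1.2.2 a ha b hb).trans (h2.2.2 b hb c h)
            rw [Hin_some h1, Hin_some h2, Hin_some h3, Hin_some h4, Finset.union_assoc]
          · have h3 : ¬ Hin_R (A ∪ B) C := by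
              intro h
              exact h2 ⟨h1.2.1, h.2.1, fun b hb c hc =>
                h.2.2 b (Finset.mem_union_right _ hb) c hc⟩
            rw [Hin_some h1, Hin_not h2, Hin_not h3, Hin_none]
        · by_cases h2 : Hin_R B C
          · have h3 : ¬ Hin_R A (B ∪ C) := by
              intro h
              exact h1 ⟨h.1, h2.1, fun a ha b hb =>
                h.2.2 a ha b (Finset.mem_union_left _ hb)⟩
            rw [Hin_not h1, Hin_some h2, Hin_not h3, Hin_none']
          · rw [Hin_not h1, Hin_not h2, Hin_none, Hin_none']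

noncomputable instance Hin_inst : Semigroup Hin_M where
  mul := Hin_mul
  mul_assoc := Hin_assoc

theorem Hin_FP {b : Stream' Hin_M} {m : Hin_M} (h : m ∈ Hindman.FP b) :
    ∀ k : ℕ, (∀ n, b.get n = (some {k + n} : Option (Finset ℕ))) →
      ∃ D : Finset ℕ, m = (some D : Option (Finset ℕ)) ∧ D.Nonempty ∧ ∀ d ∈ D, k ≤ d := by
  induction h with
  | head' b =>
    intro k hk
    refine ⟨{k}, hk 0, Finset.singleton_nonempty k, fun d hd => ?_⟩
    rw [Finset.mem_singleton] at hd
    exact hd.ge
  | tail' b m _ ih =>
    intro k hk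
    obtain ⟨D, h1, h2, h3⟩ := ih (k + 1) (fun n => by
      have h := hk (n + 1)
      rw [← add_assoc, add_right_comm] at h
      exact h)
    exact ⟨D, h1, h2, fun d hd => (Nat.le_succ k).trans (h3 d hd)⟩
  | cons' b m _ ih =>
    intro k hk
    obtain ⟨D, h1, h2, h3⟩ := ih (k + 1) (fun n => by
      have h := hk (n + 1)
      rw [← add_assoc, add_right_comm] at h
      exact h)
    have h4 : Hin_R {k} D := ⟨Finset.singleton_nonempty k, h2, fun a ha d hd => by
      rw [Finset.mem_singleton] at ha
      rw [ha]
      exact h3 d hd⟩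
    refine ⟨{k} ∪ D, ?_, (Finset.singleton_nonempty k).mono Finset.subset_union_left,
      fun d hd => ?_⟩
    · have h5 : b.head = (some {k} : Option (Finset ℕ)) := hk 0
      rw [h5, h1]
      exact Hin_some h4
    · rcases Finset.mem_union.1 hd with h | h
      · rw [Finset.mem_singleton] at h
        exact h.ge
      · exact (Nat.le_succ k).trans (h3 d h)

theorem hind {l : ℕ} (f : Finset ℕ → Fin l) (N : ℕ) : ∃ E : ℕ → Finset ℕ, Blk E ∧
    (∀ i, ∀ a ∈ E i, N ≤ a) ∧ ∃ j, ∀ S : Finset ℕ, S.Nonempty → f (RU E S) = j := by
  let cl : Fin l → Set Hin_M := fun j => {x | ∃ D : Finset ℕ, x = (some D : Option (Finset ℕ)) ∧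
    D.Nonempty ∧ (∀ d ∈ D, N ≤ d) ∧ f D = j}
  let a : Stream' Hin_M := fun n => (some {N + n} : Option (Finset ℕ))
  obtain ⟨c, ⟨j, rfl⟩, b, hb⟩ := Hindman.FP_partition_regular a (Set.range cl)
    (Set.finite_range cl) (fun m hm => by
      obtain ⟨D, h1, h2, h3⟩ := Hin_FP hm N (fun n => rfl)
      exact ⟨cl (f D), ⟨f D, rfl⟩, D, h1, h2, h3, rfl⟩)
  have h1 : ∀ n, ∃ D : Finset ℕ, b.get n = (some D : Option (Finset ℕ)) ∧ D.Nonempty ∧
      (∀ d ∈ D, N ≤ d) ∧ f D = j := fun n => hb (Hindman.FP.singleton b n)
  choose E hE hne hN hf using h1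
  have hR : ∀ n, Hin_R (E n) (E (n + 1)) := by
    intro n
    by_contra hn
    obtain ⟨D, h2, -⟩ := hb (Hindman.FP.mul_two b n (n + 1) (Nat.lt_succ_self n))
    rw [hE, hE] at h2
    have h3 : Hin_mul (some (E n)) (some (E (n + 1))) = some D := h2
    rw [Hin_not hn] at h3
    cases h3
  have hB : Blk E := ⟨hne, fun i a ha b' hb' => (hR i).2.2 a ha b' hb'⟩
  refine ⟨E, hB, hN, j, fun S hS => ?_⟩
  have key : ∀ S : Finset ℕ, S.Nonempty → ∀ k : ℕ, (∀ i ∈ S, k ≤ i) →
      (some (RU E S) : Option (Finset ℕ)) ∈ Hindman.FP (b.drop k) := by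
    intro S
    induction S using Finset.induction_on_min with
    | empty => exact fun h => absurd h Finset.not_nonempty_empty
    | insert x s hx ih =>
      intro _ k hk
      have hkx : k ≤ x := hk x (Finset.mem_insert_self x s)
      have hsub : Hindman.FP (b.drop x) ⊆ Hindman.FP (b.drop k) := by
        have h2 := Hindman.FP_drop_subset_FP (b.drop k) (x - k)
        rwa [Stream'.drop_drop, Nat.add_sub_cancel' hkx] at h2
      apply hsub
      have hhead : (b.drop x).head = (some (E x) : Option (Finset ℕ)) :=
        (Stream'.head_drop b x).trans (hE x)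
      by_cases hs : s.Nonempty
      · have h2 := ih hs (x + 1) (fun i hi => hx i hi)
        have h3 : (b.drop x).tail = b.drop (x + 1) := by
          rw [Stream'.tail_eq_drop, Stream'.drop_drop]
        rw [← h3] at h2
        have h4 := Hindman.FP.cons (b.drop x) _ h2
        have h5 : Hin_R (E x) (RU E s) := by
          obtain ⟨i, hi⟩ := hs
          obtain ⟨n, hn⟩ := hne i
          refine ⟨hne x, ⟨n, mem_RU.2 ⟨i, hi, hn⟩⟩, fun a ha b' hb' => ?_⟩
          obtain ⟨i', hi', hb''⟩ := mem_RU.1 hb'
          exact hB.lt (hx i' hi') a ha b' hb''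
        have h6 : Hin_mul (b.drop x).head (some (RU E s)) = some (RU E (insert x s)) := by
          rw [hhead, Hin_some h5]
          unfold RU
          rw [Finset.biUnion_insert]
        rw [← h6]
        exact h4
      · rw [Finset.not_nonempty_iff_eq_empty] at hs
        subst hs
        have h2 : RU E (insert x ∅) = E x := by
          unfold RU
          rw [insert_empty_eq, Finset.singleton_biUnion]
        rw [h2, ← hhead]
        exact Hindman.FP.head _
  obtain ⟨D, h2, -, -, h3⟩ := hb (key S hS 0 (fun i _ => Nat.zero_le i))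
  have h4 : RU E S = D := Option.some.inj h2
  rw [h4]
  exact h3

end Pool.Agent.DR
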