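import Pool.Agent.H.MP_b2838e_lc.Stp

/-!
# Module Lim: the limit of the conditions
-/

namespace Pool.Agent.DR

variable {F : ℕ → List ℕ → ℕ → Option ℕ} {l : ℕ} {c : (ℕ → ℕ) → Fin l}

/-- The tasks: a new piece or a requirement. -/
abbrev Task (l : ℕ) : Type := Fin l ⊕ ((Fin l → ℕ) × ℕ)

/-- The task is done. -/
def TDone (F : ℕ → List ℕ → ℕ → Option ℕ) {l : ℕ} (P : Finset (Fin l)) (g : ℕ → ℕ) (S S' : St l) :
    Task l → Prop
  | Sum.inl j => j ∈ P → (S.p j).length < (S'.p j).length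
  | Sum.inr (e, t0) => Don F P g S' e t0

/-- The partition for the colour `j`. -/
def xj (s : ℕ → St l) (j : Fin l) (n : ℕ) : ℕ := wd ((s (n + 1)).p j) n

section

variable {P : Finset (Fin l)} {g : ℕ → ℕ} {L0 : List (Par × ℕ)} {s : ℕ → St l}

theorem lim_ext (hE : ∀ k, Ext F (s k) (s (k + 1))) {k k' : ℕ} (h : k < k') :
    Ext F (s k) (s k') := by
  induction k', h using Nat.le_induction with
  | base => exact hE k
  | succ k' _ ih => exact ih.trans (hE k')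

theorem lim_M (hE : ∀ k, Ext F (s k) (s (k + 1))) (k : ℕ) : k ≤ (s k).M := by
  induction k with
  | zero => exact Nat.zero_le _
  | succ k ih => exact lt_of_le_of_lt ih (hE k).1

theorem lim_app (hE : ∀ k, Ext F (s k) (s (k + 1))) (j : Fin l) {k k' : ℕ} (h : k ≤ k') :
    ∃ q, Fam q ∧ (∀ D ∈ q, ∀ a ∈ D, (s k).N ≤ a) ∧
      (s k').p j = (s k).p j ++ q.map (RU (Res F (s k).L)) := by
  rcases h.lt_or_eq with h | h
  · obtain ⟨-, E, -, -, -, h2⟩ := lim_ext hE h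
    obtain ⟨q, h3, h4, h5⟩ := h2 j
    exact ⟨q, h3, fun D hD a ha => (h4 D hD a ha).1, h5⟩
  · subst h
    exact ⟨[], Fam.nil, fun D hD => absurd hD List.not_mem_nil, by
      rw [List.map_nil, List.append_nil]⟩

theorem lim_wd (hI : ∀ k, Inv F c P L0 (s k)) (hE : ∀ k, Ext F (s k) (s (k + 1))) (j : Fin l)
    {k k' : ℕ} (h : k ≤ k') {n : ℕ} (hn : n < (s k).M) :
    wd ((s k').p j) n = wd ((s k).p j) n := by
  obtain ⟨q, -, hq, h1⟩ := lim_app hE j h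
  rw [h1]
  refine wd_append fun D hD hnD => ?_
  obtain ⟨A, hA, rfl⟩ := List.mem_map.1 hD
  obtain ⟨i, hi, hni⟩ := mem_RU.1 hnD
  have := (hI k).hM i (hq A hA i hi) n hni
  omega

theorem lim_x (hI : ∀ k, Inv F c P L0 (s k)) (hE : ∀ k, Ext F (s k) (s (k + 1))) (j : Fin l)
    (k : ℕ) {n : ℕ} (hn : n < (s k).M) : xj s j n = wd ((s k).p j) n := by
  have hn' : n < (s (n + 1)).M := lt_of_lt_of_le (Nat.lt_succ_self n) (lim_M hE (n + 1))
  unfold xj
  rcases le_total k (n + 1) with h | h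
  · exact lim_wd hI hE j h hn
  · exact (lim_wd hI hE j h hn').symm

theorem lim_get (hI : ∀ k, Inv F c P L0 (s k)) (hE : ∀ k, Ext F (s k) (s (k + 1))) (j : Fin l)
    (k : ℕ) {i : ℕ} (hi : i < ((s k).p j).length) {n : ℕ} (hn : n ∈ ((s k).p j)[i]) :
    xj s j n = i + 1 := by
  have h1 : n < (s k).M := ((hI k).hq j _ (List.getElem_mem hi) n hn).2
  rw [lim_x hI hE j k h1]
  exact wd_get ((hI k).hp j) hi hn

theorem lim_zero (hI : ∀ k, Inv F c P L0 (s k)) (j : Fin l) : xj s j 0 = 0 := by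
  unfold xj
  exact wd_eq_zero fun q hq h0 => lt_irrefl 0 ((hI 1).hq j q hq 0 h0).1

theorem lim_spec (hE : ∀ k, Ext F (s k) (s (k + 1))) (j : Fin l)
    {i n : ℕ} (h : xj s j n = i + 1) : ∃ k, ∃ hi : i < ((s k).p j).length,
      n ∈ ((s k).p j)[i] := ⟨n + 1, wd_spec h⟩

theorem lim_len {τ : ℕ → Task l} (hτ : ∀ a k0, ∃ k ≥ k0, τ k = a)
    (hE : ∀ k, Ext F (s k) (s (k + 1))) (hD : ∀ k, TDone F P g (s k) (s (k + 1)) (τ k)) {j : Fin l}
    (hj : j ∈ P) (r : ℕ) : ∃ k, r ≤ ((s k).p j).length := by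
  induction r with
  | zero => exact ⟨0, Nat.zero_le _⟩
  | succ r ih =>
    obtain ⟨k0, h0⟩ := ih
    obtain ⟨k, hk, h1⟩ := hτ (Sum.inl j) k0
    have h2 := hD k
    rw [h1] at h2
    have h3 : ((s k).p j).length < ((s (k + 1)).p j).length := h2 hj
    obtain ⟨q, -, -, h4⟩ := lim_app hE j hk
    have h5 : ((s k0).p j).length ≤ ((s k).p j).length := by
      rw [h4, List.length_append]
      exact Nat.le_add_right _ _
    exact ⟨k + 1, by omega⟩

theorem lim_part {τ : ℕ → Task l} (hτ : ∀ a k0, ∃ k ≥ k0, τ k = a)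
    (hI : ∀ k, Inv F c P L0 (s k)) (hE : ∀ k, Ext F (s k) (s (k + 1)))
    (hD : ∀ k, TDone F P g (s k) (s (k + 1)) (τ k)) {j : Fin l} (hj : j ∈ P) :
    InfPart (xj s j) := by
  refine ⟨fun n i hi => ?_, fun i => ?_⟩
  · obtain ⟨i', hi'⟩ : ∃ i', xj s j n = i' + 1 := ⟨xj s j n - 1, by omega⟩
    obtain ⟨k, hik, hn⟩ := lim_spec hE j hi'
    cases i with
    | zero =>
      exact ⟨0, ((hI k).hq j _ (List.getElem_mem hik) n hn).1, lim_zero hI j⟩
    | succ i =>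
      have h1 : i < i' := by omega
      obtain ⟨-, a, ha, hab⟩ := List.pairwise_iff_getElem.1 ((hI k).hp j).2 i i' (h1.trans hik) hik h1
      exact ⟨a, hab n hn, lim_get hI hE j k (h1.trans hik) ha⟩
  · cases i with
    | zero => exact ⟨0, lim_zero hI j⟩
    | succ i =>
      obtain ⟨k, hk⟩ := lim_len hτ hE hD hj (i + 1)
      obtain ⟨n, hn⟩ := ((hI k).hp j).1 _ (List.getElem_mem (show i < ((s k).p j).length from hk))
      exact ⟨n, lim_get hI hE j k hk hn⟩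

theorem lim_homog {τ : ℕ → Task l} (hτ : ∀ a k0, ∃ k ≥ k0, τ k = a)
    (hI : ∀ k, Inv F c P L0 (s k)) (hE : ∀ k, Ext F (s k) (s (k + 1)))
    (hD : ∀ k, TDone F P g (s k) (s (k + 1)) (τ k)) {j : Fin l} (hj : j ∈ P) :
    Homog 2 c (xj s j) j := by
  refine ⟨lim_part hτ hI hE hD hj, fun y hy hyx => ?_⟩
  have hy0 : y 0 = 0 := by
    by_contra h
    obtain ⟨m, hm, -⟩ := hy.1 0 0 (Nat.pos_of_ne_zero h)
    exact Nat.not_lt_zero m hm
  obtain ⟨n1, hn1⟩ := hy.2.2 1 (by norm_num)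
  have hM : n1 < (s (n1 + 1)).M := lt_of_lt_of_le (Nat.lt_succ_self n1) (lim_M hE (n1 + 1))
  refine (hI (n1 + 1)).hc j hj y hy ⟨n1, hM, hn1⟩ (fun q hq n hn m hm => ?_) (fun n hn h1 => ?_)
  · obtain ⟨i, hi, rfl⟩ := List.mem_iff_getElem.1 hq
    refine hyx n m ?_
    rw [lim_get hI hE j _ hi hn, lim_get hI hE j _ hi hm]
  · by_contra hno
    push Not at hno
    have h2 : xj s j n = 0 := by
      rw [lim_x hI hE j _ hn]
      exact wd_eq_zero hno
    have h3 : y n = y 0 := hyx n 0 (by rw [h2, lim_zero hI j])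
    rw [h1, hy0] at h3
    exact one_ne_zero h3

theorem FV_unique {G : List ℕ → ℕ → Option ℕ} {x : ℕ → ℕ} {t n v n' v' : ℕ} (h : FV G x t n v)
    (h' : FV G x t n' v') : v = v' := by
  have hn : n = n' := by
    rcases lt_trichotomy n n' with h1 | h1 | h1
    · have := h'.2 n h1
      rw [h.1] at this
      exact absurd this (by simp)
    · exact h1
    · have := h.2 n' h1
      rw [h'.1] at this
      exact absurd this (by simp)
  subst hn
  have := h.1.symm.trans h'.1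
  exact Option.some.inj this

theorem lim_main {τ : ℕ → Task l} (hτ : ∀ a k0, ∃ k ≥ k0, τ k = a)
    (hI : ∀ k, Inv F c P L0 (s k)) (hE : ∀ k, Ext F (s k) (s (k + 1)))
    (hD : ∀ k, TDone F P g (s k) (s (k + 1)) (τ k)) : ∃ x j, Homog 2 c x j ∧
      ∀ e, ¬ ∃ h : ℕ → ℕ, (∀ t, Val (F e) x t (h t)) ∧ ∃ t0, ∀ t ≥ t0, g t ≤ h t := by
  by_contra hcon
  have h1 : ∀ j : Fin l, ∃ e t0, ∃ h : ℕ → ℕ, j ∈ P → (∀ t, Val (F e) (xj s j) t (h t)) ∧
      ∀ t ≥ t0, g t ≤ h t := by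
    intro j
    by_cases hj : j ∈ P
    · by_contra h2
      refine hcon ⟨xj s j, j, lim_homog hτ hI hE hD hj, ?_⟩
      rintro e ⟨h, h3, t0, h4⟩
      exact h2 ⟨e, t0, h, fun _ => ⟨h3, h4⟩⟩
    · exact ⟨0, 0, fun _ => 0, fun h => absurd h hj⟩
  choose e t0 h h2 using h1
  obtain ⟨k, -, hk⟩ := hτ (Sum.inr (e, ∑ j, t0 j)) 0
  have h3 := hD k
  rw [hk] at h3
  obtain ⟨j, hj, h4⟩ : Don F P g (s (k + 1)) e (∑ j, t0 j) := h3
  obtain ⟨hval, hdom⟩ := h2 j hj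
  rcases h4 with ⟨t, ht, n, v, hn, hv, hfv⟩ | ⟨t, hdiv⟩
  · have h5 : FV (F (e j)) (xj s j) t n v := by
      refine hfv.congr fun m hm => ?_
      rw [lim_x hI hE j (k + 1) (lt_of_lt_of_le hm hn)]
    obtain ⟨n', h6⟩ := hval t
    have h7 : v = h j t := FV_unique h5 h6
    have h8 : t0 j ≤ t := (Finset.single_le_sum (f := t0) (fun _ _ => Nat.zero_le _)
      (Finset.mem_univ j)).trans ht
    have h9 := hdom t h8
    omega
  · obtain ⟨n, h6, -⟩ := hval t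
    obtain ⟨k', hk', hk2⟩ : ∃ k' ≥ k + 1, n ≤ (s k').M :=
      ⟨max (k + 1) n, le_max_left _ _, (le_max_right _ _).trans (lim_M hE _)⟩
    obtain ⟨q, hq, -, h7⟩ := lim_app hE j hk'
    have h8 : pre (xj s j) n = pre (wd ((s (k + 1)).p j ++ q.map (RU (Res F (s (k + 1)).L)))) n := by
      rw [← h7]
      exact pre_congr fun m hm => lim_x hI hE j k' (lt_of_lt_of_le hm hk2)
    rw [h8, hdiv q hq n] at h6
    exact absurd h6 (by simp)

end

/-- Two pieces. -/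
theorem two (F : ℕ → List ℕ → ℕ → Option ℕ) : ∃ g : ℕ → ℕ,
    ∀ (l : ℕ) (c : (ℕ → ℕ) → Fin l), Cont 2 c → ∃ x j, Homog 2 c x j ∧
      ∀ e, ¬ ∃ h : ℕ → ℕ, (∀ t, Val (F e) x t (h t)) ∧ ∃ t0, ∀ t ≥ t0, g t ≤ h t := by
  obtain ⟨g, hg⟩ := exists_g F
  refine ⟨g, fun l c hc => ?_⟩
  obtain ⟨L0, hL0⟩ := exists_L0 F c
  obtain ⟨τ0, hτ0⟩ := exists_surjective_nat (Task l)
  have hstep : ∀ (a : Task l) (S : {S : St l // Inv F c (Pers F c L0) L0 S}),
      ∃ S' : {S : St l // Inv F c (Pers F c L0) L0 S}, Ext F S.1 S'.1 ∧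
        TDone F (Pers F c L0) g S.1 S'.1 a := by
    rintro (j | ⟨e, t0⟩) ⟨S, hS⟩
    · by_cases hj : j ∈ Pers F c L0
      · obtain ⟨S', h1, h2, h3⟩ := step_piece hc hL0 hS hj
        exact ⟨⟨S', h1⟩, h2, fun _ => h3⟩
      · obtain ⟨S', h1, h2, -⟩ := step_req hc hg hL0 hS (fun _ => 0) 0
        exact ⟨⟨S', h1⟩, h2, fun h => absurd h hj⟩
    · obtain ⟨S', h1, h2, h3⟩ := step_req hc hg hL0 hS e t0
      exact ⟨⟨S', h1⟩, h2, h3⟩
  choose nx hnx1 hnx2 using hstep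
  have h0 : Inv F c (Pers F c L0) L0 (⟨L0, 0, 0, fun _ => []⟩ : St l) := by
    refine ⟨⟨[], rfl⟩, fun i _ m _ => Nat.zero_le m, fun j => Fam.nil,
      fun j q hq => absurd hq List.not_mem_nil, fun j _ y _ h1 => ?_⟩
    obtain ⟨n, hn, -⟩ := h1
    exact absurd hn (Nat.not_lt_zero n)
  let τ : ℕ → Task l := fun k => τ0 (Nat.unpair k).1
  let s : ℕ → {S : St l // Inv F c (Pers F c L0) L0 S} := fun k =>
    Nat.rec ⟨_, h0⟩ (fun k S => nx (τ k) S) k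
  refine lim_main (s := fun k => (s k).1) (τ := τ) (P := Pers F c L0) (L0 := L0) ?_
    (fun k => (s k).2) (fun k => ?_) (fun k => ?_)
  · intro a k0
    obtain ⟨i, hi⟩ := hτ0 a
    refine ⟨Nat.pair i k0, Nat.right_le_pair i k0, ?_⟩
    show τ0 (Nat.unpair (Nat.pair i k0)).1 = a
    rw [Nat.unpair_pair]
    exact hi
  · exact hnx1 (τ k) (s k)
  · exact hnx2 (τ k) (s k)

end Pool.Agent.DR
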