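import Pool.Agent.H.MP_b2838e_lc.Tree

/-!
# Module St: the conditions
-/

namespace Pool.Agent.DR

/-- The partition with the two pieces `A` and its complement. -/
def yf (A : Finset ℕ) (n : ℕ) : ℕ := if n ∈ A then 1 else 0

theorem yf_part {A : Finset ℕ} (h : A.Nonempty) (h0 : ∀ n ∈ A, 0 < n) : KPart 2 (yf A) := by
  have hz : yf A 0 = 0 := by
    unfold yf
    rw [if_neg (fun h1 => lt_irrefl 0 (h0 0 h1))]
  refine ⟨fun n i hi => ?_, fun n => ?_, fun i hi => ?_⟩
  · have h1 : n ∈ A := by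
      by_contra hn
      unfold yf at hi
      rw [if_neg hn] at hi
      exact Nat.not_lt_zero i hi
    have h2 : i = 0 := by
      unfold yf at hi
      rw [if_pos h1] at hi
      omega
    exact ⟨0, h0 n h1, by rw [hz, h2]⟩
  · unfold yf
    split_ifs <;> omega
  · have h1 : i = 0 ∨ i = 1 := by omega
    rcases h1 with h1 | h1
    · exact ⟨0, by rw [hz, h1]⟩
    · obtain ⟨n, hn⟩ := h
      refine ⟨n, ?_⟩
      unfold yf
      rw [if_pos hn, h1]

/-- All partitions whose first piece after the piece of `0` is a union of members of the list have the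
colour `j`. -/
def Dec {l : ℕ} (c : (ℕ → ℕ) → Fin l) (j : Fin l) (M : ℕ) (p : List (Finset ℕ)) : Prop :=
  ∀ y, KPart 2 y → (∃ n < M, y n = 1) → (∀ q ∈ p, ∀ n ∈ q, ∀ m ∈ q, y n = y m) →
    (∀ n < M, y n = 1 → ∃ q ∈ p, n ∈ q) → c y = j

theorem Dec.mono {l : ℕ} {c : (ℕ → ℕ) → Fin l} {j : Fin l} {M M' : ℕ} {p : List (Finset ℕ)}
    (h : Dec c j M p) (hp : ∀ q ∈ p, ∀ n ∈ q, n < M) (hM : M ≤ M') : Dec c j M' p := by
  intro y hy h1 h2 h3
  obtain ⟨n, hn, hn1⟩ := h1
  obtain ⟨q, hq, hnq⟩ := h3 n hn hn1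
  exact h y hy ⟨n, hp q hq n hnq, hn1⟩ h2 (fun m hm hm1 => h3 m (lt_of_lt_of_le hm hM) hm1)

/-- Conditions: the history of the reservoir, its beginning, the length and the pieces. -/
structure St (l : ℕ) where
  L : List (Par × ℕ)
  N : ℕ
  M : ℕ
  p : Fin l → List (Finset ℕ)

variable (F : ℕ → List ℕ → ℕ → Option ℕ) {l : ℕ} (c : (ℕ → ℕ) → Fin l)

/-- The properties of the conditions. -/
structure Inv (P : Finset (Fin l)) (L0 : List (Par × ℕ)) (S : St l) : Prop where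
  hL : ∃ L', S.L = L' ++ L0
  hM : ∀ i ≥ S.N, ∀ m ∈ Res F S.L i, S.M ≤ m
  hp : ∀ j, Fam (S.p j)
  hq : ∀ j, ∀ q ∈ S.p j, ∀ n ∈ q, 0 < n ∧ n < S.M
  hc : ∀ j ∈ P, Dec c j S.M (S.p j)

/-- Extensions of conditions. -/
def Ext (S S' : St l) : Prop :=
  S.M < S'.M ∧ ∃ E, Blk E ∧ (∀ i ≥ S'.N, ∀ a ∈ E i, S.N ≤ a) ∧
    (Res F S'.L = fun i => RU (Res F S.L) (E i)) ∧
    ∀ j, ∃ q, Fam q ∧ (∀ D ∈ q, ∀ a ∈ D, S.N ≤ a ∧ ∀ i ≥ S'.N, ∀ b ∈ E i, a < b) ∧
      S'.p j = S.p j ++ q.map (RU (Res F S.L))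

variable {F} {c}

theorem Ext.trans {S S' S'' : St l} (h : Ext F S S') (h' : Ext F S' S'') : Ext F S S'' := by
  obtain ⟨hM, E, hE, hEN, hR, hq⟩ := h
  obtain ⟨hM', E', hE', hEN', hR', hq'⟩ := h'
  refine ⟨hM.trans hM', fun i => RU E (E' i), hE.comp hE', fun i hi a ha => ?_, ?_, fun j => ?_⟩
  · obtain ⟨k, hk, hak⟩ := mem_RU.1 ha
    exact hEN k (hEN' i hi k hk) a hak
  · rw [hR', hR]
    funext i
    exact RU_RU _ _ _
  · obtain ⟨q, h1, h2, h3⟩ := hq j
    obtain ⟨q', h1', h2', h3'⟩ := hq' j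
    refine ⟨q ++ q'.map (RU E), h1.append (h1'.map hE) ?_, ?_, ?_⟩
    · intro A hA a ha B hB b hb
      obtain ⟨D, hD, rfl⟩ := List.mem_map.1 hB
      obtain ⟨k, hk, hbk⟩ := mem_RU.1 hb
      exact (h2 A hA a ha).2 k (h2' D hD k hk).1 b hbk
    · intro D hD a ha
      rcases List.mem_append.1 hD with hD | hD
      · refine ⟨(h2 D hD a ha).1, fun i hi b hb => ?_⟩
        obtain ⟨k, hk, hbk⟩ := mem_RU.1 hb
        exact (h2 D hD a ha).2 k (hEN' i hi k hk) b hbk
      · obtain ⟨D', hD', rfl⟩ := List.mem_map.1 hD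
        obtain ⟨k, hk, hak⟩ := mem_RU.1 ha
        refine ⟨hEN k (h2' D' hD' k hk).1 a hak, fun i hi b hb => ?_⟩
        obtain ⟨k', hk', hbk'⟩ := mem_RU.1 hb
        exact hE.lt ((h2' D' hD' k hk).2 i hi k' hk') a hak b hbk'
    · rw [h3', h3, List.map_append, List.append_assoc, List.map_map]
      congr 1
      congr 1
      refine List.map_congr_left fun D _ => ?_
      rw [hR]
      exact RU_RU _ _ _

/-- Continuity at finitely many partitions. -/
theorem exists_mod (hc : Cont 2 c) {A : Finset ℕ} (h : A.Nonempty) (h0 : ∀ n ∈ A, 0 < n) :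
    ∃ m, ∀ z, KPart 2 z → (∀ n < m, z n = yf A n) → c z = c (yf A) :=
  hc (yf A) (yf_part h h0)

/-- Adding a family to the pieces of one colour. -/
theorem ext_fam (hc : Cont 2 c) {P : Finset (Fin l)} {L0 : List (Par × ℕ)} {S : St l}
    (hS : Inv F c P L0 S) {j : Fin l} {q : List (Finset ℕ)} (hq : Fam q)
    (hN : ∀ D ∈ q, ∀ a ∈ D, S.N ≤ a) (hm : Mono (fun D => c (yf (RU (Res F S.L) D))) j q)
    (M0 : ℕ) : ∃ S' : St l, Inv F c P L0 S' ∧ Ext F S S' ∧ S'.L = S.L ∧ M0 ≤ S'.M ∧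
      S'.p = Function.update S.p j (S.p j ++ q.map (RU (Res F S.L))) := by
  classical
  set R := Res F S.L with hRdef
  have hRB : Blk R := res_blk F S.L
  -- the union of the members
  obtain ⟨U, hU⟩ : ∃ U : Finset ℕ, ∀ a, a ∈ U ↔ ∃ D ∈ q, a ∈ D := by
    refine ⟨q.toFinset.biUnion id, fun a => ?_⟩
    simp
  -- the moduli
  have hmod : ∀ V : Finset ℕ, ∃ m, V.Nonempty → ∀ z, KPart 2 z →
      (∀ n < m, z n = yf (RU R V) n) → c z = c (yf (RU R V)) := by
    intro V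
    by_cases hV : V.Nonempty
    · obtain ⟨k, hk⟩ := hV
      obtain ⟨n, hn⟩ := hRB.1 k
      obtain ⟨m, hm⟩ := exists_mod (A := RU R V) hc ⟨n, mem_RU.2 ⟨k, hk, hn⟩⟩ (fun n hn => by
        obtain ⟨i, -, h2⟩ := mem_RU.1 hn
        exact res_pos F S.L i n h2)
      exact ⟨m, fun _ => hm⟩
    · exact ⟨0, fun h => absurd h hV⟩
  choose mo hmo using hmod
  obtain ⟨M', hM1, hM2, hM3, hM4⟩ : ∃ M', S.M < M' ∧ M0 ≤ M' ∧ (∀ V ⊆ U, mo V ≤ M') ∧
      ∀ n ∈ RU R U, n < M' := by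
    refine ⟨S.M + 1 + M0 + (∑ V ∈ U.powerset, mo V) + (RU R U).sup (fun n => n + 1), by omega,
      by omega, fun V hV => ?_, fun n hn => ?_⟩
    · have h1 : mo V ≤ ∑ V ∈ U.powerset, mo V :=
        Finset.single_le_sum (fun _ _ => Nat.zero_le _) (Finset.mem_powerset.2 hV)
      omega
    · have h1 : n + 1 ≤ (RU R U).sup (fun n => n + 1) := Finset.le_sup (f := fun n => n + 1) hn
      omega
  obtain ⟨N', hN1, hN2, hN3⟩ : ∃ N', S.N ≤ N' ∧ M' ≤ N' ∧ ∀ a ∈ U, a < N' := by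
    refine ⟨S.N + M' + U.sup (fun n => n + 1), by omega, by omega, fun a ha => ?_⟩
    have h1 : a + 1 ≤ U.sup (fun n => n + 1) := Finset.le_sup (f := fun n => n + 1) ha
    omega
  have hnew : ∀ D ∈ q, ∀ n ∈ RU R D, 0 < n ∧ S.M ≤ n ∧ n < M' := by
    intro D hD n hn
    obtain ⟨i, hi, hni⟩ := mem_RU.1 hn
    refine ⟨res_pos F S.L i n hni, hS.hM i (hN D hD i hi) n hni, hM4 n ?_⟩
    exact mem_RU.2 ⟨i, (hU i).2 ⟨D, hD, hi⟩, hni⟩
  have hlt : ∀ A ∈ S.p j, ∀ a ∈ A, ∀ B ∈ q.map (RU R), ∀ b ∈ B, a < b := by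
    intro A hA a ha B hB b hb
    obtain ⟨D, hD, rfl⟩ := List.mem_map.1 hB
    exact lt_of_lt_of_le (hS.hq j A hA a ha).2 (hnew D hD b hb).2.1
  refine ⟨⟨S.L, N', M', Function.update S.p j (S.p j ++ q.map (RU R))⟩, ⟨hS.hL, ?_, ?_, ?_, ?_⟩,
    ⟨hM1, fun i => {i}, ?_, ?_, ?_, ?_⟩, rfl, hM2, rfl⟩
  · intro i hi m hm
    exact hN2.trans (hi.le.trans (hRB.le i m hm))
  · intro j'
    by_cases h : j' = j
    · subst h
      dsimp only
      rw [Function.update_self]
      exact (hS.hp j').append (hq.map hRB) hlt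
    · dsimp only
      rw [Function.update_of_ne h]
      exact hS.hp j'
  · intro j' A hA n hn
    have hold : A ∈ S.p j' → 0 < n ∧ n < M' := fun h =>
      ⟨(hS.hq j' A h n hn).1, (hS.hq j' A h n hn).2.trans hM1⟩
    by_cases h : j' = j
    · subst h
      dsimp only at hA
      rw [Function.update_self] at hA
      rcases List.mem_append.1 hA with hA | hA
      · exact hold hA
      · obtain ⟨D, hD, rfl⟩ := List.mem_map.1 hA
        exact ⟨(hnew D hD n hn).1, (hnew D hD n hn).2.2⟩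
    · dsimp only at hA
      rw [Function.update_of_ne h] at hA
      exact hold hA
  · intro j' hj'
    by_cases h : j' = j
    · subst h
      dsimp only
      rw [Function.update_self]
      intro y hy hy1 hy2 hy3
      by_cases hcase : ∃ n < S.M, y n = 1
      · refine hS.hc j' hj' y hy hcase (fun A hA => hy2 A (List.mem_append_left _ hA)) ?_
        intro n hn hn1
        obtain ⟨A, hA, hnA⟩ := hy3 n (hn.trans hM1) hn1
        rcases List.mem_append.1 hA with hA | hA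
        · exact ⟨A, hA, hnA⟩
        · obtain ⟨D, hD, rfl⟩ := List.mem_map.1 hA
          have := (hnew D hD n hnA).2.1
          omega
      · -- the first piece is new
        obtain ⟨V, hV⟩ : ∃ V : Finset ℕ, ∀ a, a ∈ V ↔ a ∈ U ∧ ∃ n ∈ R a, y n = 1 :=
          ⟨U.filter (fun a => ∃ n ∈ R a, y n = 1), fun a => Finset.mem_filter⟩
        have hcl : ∀ D ∈ q, ∀ a ∈ D, ∀ b ∈ D, a ∈ V → b ∈ V ∧ ∀ n ∈ R b, y n = 1 := by
          intro D hD a ha b hb haV
          obtain ⟨-, n, hn, hn1⟩ := (hV a).1 haV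
          have h1 : ∀ m ∈ R b, y m = 1 := by
            intro m hm
            rw [← hn1]
            exact hy2 (RU R D) (List.mem_append_right _ (List.mem_map.2 ⟨D, hD, rfl⟩)) m
              (mem_RU.2 ⟨b, hb, hm⟩) n (mem_RU.2 ⟨a, ha, hn⟩)
          obtain ⟨m, hm⟩ := hRB.1 b
          exact ⟨(hV b).2 ⟨(hU b).2 ⟨D, hD, hb⟩, m, hm, h1 m hm⟩, h1⟩
        have hval : ∀ n < M', y n = yf (RU R V) n := by
          intro n hn
          unfold yf
          split_ifs with h1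
          · obtain ⟨b, hb, hnb⟩ := mem_RU.1 h1
            obtain ⟨D, hD, hbD⟩ := (hU b).1 ((hV b).1 hb).1
            exact (hcl D hD b hbD b hbD hb).2 n hnb
          · have h2 : y n < 2 := hy.2.1 n
            by_contra h3
            have h4 : y n = 1 := by omega
            obtain ⟨A, hA, hnA⟩ := hy3 n hn h4
            rcases List.mem_append.1 hA with hA | hA
            · exact hcase ⟨n, (hS.hq j' A hA n hnA).2, h4⟩
            · obtain ⟨D, hD, rfl⟩ := List.mem_map.1 hA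
              obtain ⟨b, hb, hnb⟩ := mem_RU.1 hnA
              exact h1 (mem_RU.2 ⟨b, (hV b).2 ⟨(hU b).2 ⟨D, hD, hb⟩, n, hnb, h4⟩, hnb⟩)
        have hVne : V.Nonempty := by
          obtain ⟨n, hn, hn1⟩ := hy1
          rw [hval n hn] at hn1
          unfold yf at hn1
          split_ifs at hn1 with h1
          obtain ⟨b, hb, -⟩ := mem_RU.1 h1
          exact ⟨b, hb⟩
        have hVU : V ⊆ U := fun a ha => ((hV a).1 ha).1
        rw [hmo V hVne y hy (fun n hn => hval n (lt_of_lt_of_le hn (hM3 V hVU)))]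
        refine hm V ⟨hVne, fun v hv => ?_, fun D hD a ha b hb haV => (hcl D hD a ha b hb haV).1⟩
        exact (hU v).1 (hVU hv)
    · dsimp only
      rw [Function.update_of_ne h]
      exact (hS.hc j' hj').mono (fun A hA n hn => (hS.hq j' A hA n hn).2) hM1.le
  · exact ⟨fun i => ⟨i, Finset.mem_singleton_self i⟩, fun i a ha b hb => by
      rw [Finset.mem_singleton] at ha hb
      omega⟩
  · intro i hi a ha
    rw [Finset.mem_singleton] at ha
    rw [ha]
    exact hN1.trans hi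
  · funext i
    unfold RU
    rw [Finset.singleton_biUnion]
  · intro j'
    by_cases h : j' = j
    · subst h
      refine ⟨q, hq, fun D hD a ha => ⟨hN D hD a ha, fun i hi b hb => ?_⟩, ?_⟩
      · rw [Finset.mem_singleton] at hb
        have := hN3 a ((hU a).2 ⟨D, hD, ha⟩)
        dsimp only at hi
        omega
      · dsimp only
        rw [Function.update_self]
    · refine ⟨[], Fam.nil, fun D hD => absurd hD List.not_mem_nil, ?_⟩
      dsimp only
      rw [Function.update_of_ne h, List.map_nil, List.append_nil]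

end Pool.Agent.DR
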