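import Pool.Agent.H.MP_b2838e_lc.St

/-!
# Module Stp: the steps
-/

namespace Pool.Agent.DR

variable {F : ℕ → List ℕ → ℕ → Option ℕ} {l : ℕ} {c : (ℕ → ℕ) → Fin l}

/-- The labels of the sets of indices. -/
noncomputable def lab (F : ℕ → List ℕ → ℕ → Option ℕ) {l : ℕ} (c : (ℕ → ℕ) → Fin l) (L : List (Par × ℕ))
    (D : Finset ℕ) : Fin l := c (yf (RU (Res F L) D))

open Classical in
/-- The labels which occur arbitrarily late. -/
noncomputable def Pers (F : ℕ → List ℕ → ℕ → Option ℕ) {l : ℕ} (c : (ℕ → ℕ) → Fin l)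
    (L : List (Par × ℕ)) : Finset (Fin l) :=
  Finset.univ.filter (fun j => ∀ N : ℕ, ∃ D : Finset ℕ, D.Nonempty ∧ (∀ a ∈ D, N ≤ a) ∧
    lab F c L D = j)

theorem mem_pers {L : List (Par × ℕ)} {j : Fin l} : j ∈ Pers F c L ↔
    ∀ N : ℕ, ∃ D : Finset ℕ, D.Nonempty ∧ (∀ a ∈ D, N ≤ a) ∧ lab F c L D = j := by
  classical
  unfold Pers
  rw [Finset.mem_filter]
  exact ⟨fun h => h.2, fun h => ⟨Finset.mem_univ j, h⟩⟩

theorem pers_cons (a : Par × ℕ) (L : List (Par × ℕ)) : Pers F c (a :: L) ⊆ Pers F c L := by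
  by_cases h : ∃ R', NoA F a.1 a.2 (Res F L) R'
  · obtain ⟨E, hE, -, h1, -⟩ := res_cons F h
    intro j hj
    rw [mem_pers] at hj ⊢
    intro N
    obtain ⟨D, hD, hN, hl⟩ := hj N
    refine ⟨RU E D, ?_, ?_, ?_⟩
    · obtain ⟨k, hk⟩ := hD
      obtain ⟨n, hn⟩ := hE.1 k
      exact ⟨n, mem_RU.2 ⟨k, hk, hn⟩⟩
    · intro b hb
      obtain ⟨k, hk, hbk⟩ := mem_RU.1 hb
      exact (hN k hk).trans (hE.le k b hbk)
    · rw [← hl]
      unfold lab
      rw [h1, RU_RU]
  · have h1 : Res F (a :: L) = Res F L := by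
      rw [Res]
      unfold nxt
      rw [dif_neg h]
    intro j hj
    rw [mem_pers] at hj ⊢
    unfold lab at hj ⊢
    rw [h1] at hj
    exact hj

theorem pers_append (L' L : List (Par × ℕ)) : Pers F c (L' ++ L) ⊆ Pers F c L := by
  induction L' with
  | nil => exact Finset.Subset.refl _
  | cons a L' ih => exact (pers_cons a (L' ++ L)).trans ih

/-- A reservoir with a minimal number of labels. -/
theorem exists_L0 (F : ℕ → List ℕ → ℕ → Option ℕ) {l : ℕ} (c : (ℕ → ℕ) → Fin l) :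
    ∃ L0, ∀ L', Pers F c (L' ++ L0) = Pers F c L0 := by
  have h : ∃ k, ∃ L, (Pers F c L).card = k := ⟨_, [], rfl⟩
  classical
  obtain ⟨L0, hL0⟩ := Nat.find_spec h
  refine ⟨L0, fun L' => Finset.eq_of_subset_of_card_le (pers_append L' L0) ?_⟩
  rw [hL0]
  exact Nat.find_min' h ⟨L' ++ L0, rfl⟩

/-- The labels are persistent from some index on. -/
theorem exists_N0 (L : List (Par × ℕ)) : ∃ N0, ∀ D : Finset ℕ, D.Nonempty → (∀ a ∈ D, N0 ≤ a) →
    lab F c L D ∈ Pers F c L := by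
  have h : ∀ j : Fin l, ∃ N : ℕ, j ∉ Pers F c L → ∀ D : Finset ℕ, D.Nonempty →
      (∀ a ∈ D, N ≤ a) → lab F c L D ≠ j := by
    intro j
    by_cases hj : j ∈ Pers F c L
    · exact ⟨0, fun h => absurd hj h⟩
    · have h1 := hj
      rw [mem_pers] at h1
      push Not at h1
      obtain ⟨N, hN⟩ := h1
      exact ⟨N, fun _ D hD ha => hN D hD ha⟩
  choose N hN using h
  refine ⟨∑ j, N j, fun D hD ha => ?_⟩
  by_contra hj
  refine hN _ hj D hD (fun a haD => le_trans ?_ (ha a haD)) rfl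
  exact Finset.single_le_sum (f := N) (fun _ _ => Nat.zero_le _) (Finset.mem_univ _)

/-- The requirement for the functionals `e` is satisfied by the condition. -/
def Don (F : ℕ → List ℕ → ℕ → Option ℕ) {l : ℕ} (P : Finset (Fin l)) (g : ℕ → ℕ) (S : St l)
    (e : Fin l → ℕ) (t0 : ℕ) : Prop :=
  ∃ j ∈ P, (∃ t ≥ t0, ∃ n v, n ≤ S.M ∧ v < g t ∧ FV (F (e j)) (wd (S.p j)) t n v) ∨
    ∃ t, ∀ q, Fam q → ∀ n, F (e j) (pre (wd (S.p j ++ q.map (RU (Res F S.L)))) n) t = none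

/-- A new piece. -/
theorem step_piece (hc : Cont 2 c) {P : Finset (Fin l)} {L0 : List (Par × ℕ)}
    (hP : ∀ L', Pers F c (L' ++ L0) = P) {S : St l} (hS : Inv F c P L0 S) {j : Fin l} (hj : j ∈ P) :
    ∃ S' : St l, Inv F c P L0 S' ∧ Ext F S S' ∧ (S.p j).length < (S'.p j).length := by
  obtain ⟨L', hL'⟩ := hS.hL
  have hj' : j ∈ Pers F c S.L := by
    rw [hL', hP]
    exact hj
  obtain ⟨D, hD, hN, hl⟩ := mem_pers.1 hj' S.N
  obtain ⟨S', h1, h2, -, -, h3⟩ := ext_fam hc hS (j := j) (q := [D])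
    ⟨fun A hA => by rw [List.mem_singleton.1 hA]; exact hD, List.pairwise_singleton _ _⟩
    (fun A hA => by rw [List.mem_singleton.1 hA]; exact hN) (by
      rintro V ⟨⟨v, hv⟩, h1, h2⟩
      have h3 : V = D := by
        have hvD : v ∈ D := by
          obtain ⟨A, hA, hvA⟩ := h1 v hv
          rw [List.mem_singleton.1 hA] at hvA
          exact hvA
        ext a
        refine ⟨fun ha => ?_, fun ha => h2 D (List.mem_singleton_self D) v hvD a ha hv⟩
        obtain ⟨A, hA, haA⟩ := h1 a ha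
        rw [List.mem_singleton.1 hA] at haA
        exact haA
      rw [h3]
      exact hl) 0
  refine ⟨S', h1, h2, ?_⟩
  rw [h3, Function.update_self, List.length_append, List.length_map, List.length_singleton]
  exact Nat.lt_succ_self _

/-- A requirement for the functionals. -/
theorem step_req (hc : Cont 2 c) {g : ℕ → ℕ}
    (hg : ∀ (a : Par) (L : List (Par × ℕ)), ∃ u, ∀ t ≥ u, gam F a t (Res F L) < g t)
    {P : Finset (Fin l)} {L0 : List (Par × ℕ)} (hP : ∀ L', Pers F c (L' ++ L0) = P) {S : St l}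
    (hS : Inv F c P L0 S) (e : Fin l → ℕ) (t0 : ℕ) :
    ∃ S' : St l, Inv F c P L0 S' ∧ Ext F S S' ∧ Don F P g S' e t0 := by
  obtain ⟨L', hL'⟩ := hS.hL
  have hPS : Pers F c S.L = P := by rw [hL', hP]
  obtain ⟨N0, hN0⟩ := exists_N0 (F := F) (c := c) S.L
  rw [hPS] at hN0
  obtain ⟨a, ha⟩ : ∃ a : Par, a = ⟨l, P, S.p, e, max S.N N0⟩ := ⟨_, rfl⟩
  obtain ⟨u, hu⟩ := hg a S.L
  obtain ⟨t, ht0, htu⟩ : ∃ t, t0 ≤ t ∧ u ≤ t := ⟨max u t0, le_max_right _ _, le_max_left _ _⟩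
  rcases dich F P S.p e (max S.N N0) t (Res F S.L) with ⟨K, B, hy⟩ | hn
  · have hyA : YesA F a t (Res F S.L) K B := by
      rw [ha]
      exact hy
    obtain ⟨K', hyB⟩ := gam_spec F hyA
    have hyC : Yes F P S.p e (max S.N N0) t (Res F S.L) K' (gam F a t (Res F S.L)) := by
      have := hyB
      unfold YesA at this
      subst ha
      exact this
    obtain ⟨j, hj, q, hq, hqN, hm, n, v, hv, hfv⟩ := hyC (lab F c S.L)
      (fun D hD h1 => hN0 D hD fun b hb => (le_max_right _ _).trans (h1 b hb))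
    obtain ⟨S', h1, h2, h3, h4, h5⟩ := ext_fam hc hS (j := j) hq
      (fun D hD b hb => (le_max_left _ _).trans (hqN D hD b hb).1) hm n
    refine ⟨S', h1, h2, j, hj, Or.inl ⟨t, ht0, n, v, h4, lt_of_le_of_lt hv (hu t htu), ?_⟩⟩
    rw [h5, Function.update_self]
    exact hfv
  · have hnA : ∃ R', NoA F (a, t).1 (a, t).2 (Res F S.L) R' := by
      obtain ⟨R', hR'⟩ := hn
      refine ⟨R', ?_⟩
      rw [ha]
      exact hR'
    have hres := res_cons F hnA
    have hres' : No F P S.p e (max S.N N0) t (Res F S.L) (Res F ((a, t) :: S.L)) := by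
      have := hres
      unfold NoA at this
      subst ha
      exact this
    obtain ⟨E, hE, hEN, hR, j, hj, hdiv⟩ := hres'
    refine ⟨⟨(a, t) :: S.L, S.M + 1, S.M + 1, S.p⟩, ⟨⟨(a, t) :: L', ?_⟩, ?_, hS.hp, ?_, ?_⟩,
      ⟨Nat.lt_succ_self _, E, hE, ?_, hR, ?_⟩, j, hj, Or.inr ⟨t, hdiv⟩⟩
    · dsimp only
      rw [hL', List.cons_append]
    · intro i hi m hm
      exact hi.le.trans ((res_blk F _).le i m hm)
    · intro j' q hq n hn
      exact ⟨(hS.hq j' q hq n hn).1, (hS.hq j' q hq n hn).2.trans (Nat.lt_succ_self _)⟩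
    · intro j' hj'
      exact (hS.hc j' hj').mono (fun A hA n hn => (hS.hq j' A hA n hn).2) (Nat.le_succ _)
    · intro i _ b hb
      exact (le_max_left _ _).trans (hEN i b hb)
    · intro j'
      refine ⟨[], Fam.nil, fun D hD => absurd hD List.not_mem_nil, ?_⟩
      rw [List.map_nil, List.append_nil]

end Pool.Agent.DR
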