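import Pool.Agent.H.MP_b2838e_lc.Dich

/-!
# Module Tree: the countable tree of reservoirs
-/

namespace Pool.Agent.DR

/-- The data of a question without the argument `t`. -/
abbrev Par : Type :=
  Σ l : ℕ, Finset (Fin l) × (Fin l → List (Finset ℕ)) × (Fin l → ℕ) × ℕ

/-- The answer is yes. -/
def YesA (F : ℕ → List ℕ → ℕ → Option ℕ) (a : Par) (t : ℕ) (R : ℕ → Finset ℕ) (K B : ℕ) : Prop :=
  Yes F a.2.1 a.2.2.1 a.2.2.2.1 a.2.2.2.2 t R K B

/-- The answer is no. -/
def NoA (F : ℕ → List ℕ → ℕ → Option ℕ) (a : Par) (t : ℕ) (R R' : ℕ → Finset ℕ) : Prop :=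
  No F a.2.1 a.2.2.1 a.2.2.2.1 a.2.2.2.2 t R R'

open Classical in
/-- The next reservoir. -/
noncomputable def nxt (F : ℕ → List ℕ → ℕ → Option ℕ) (a : Par × ℕ) (R : ℕ → Finset ℕ) :
    ℕ → Finset ℕ :=
  if h : ∃ R', NoA F a.1 a.2 R R' then h.choose else R

open Classical in
/-- The bound for the value. -/
noncomputable def gam (F : ℕ → List ℕ → ℕ → Option ℕ) (a : Par) (t : ℕ) (R : ℕ → Finset ℕ) : ℕ :=
  if h : ∃ B K, YesA F a t R K B then h.choose else 0

/-- The reservoirs of the tree. -/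
noncomputable def Res (F : ℕ → List ℕ → ℕ → Option ℕ) : List (Par × ℕ) → ℕ → Finset ℕ
  | [] => fun i => {i + 1}
  | a :: L => nxt F a (Res F L)

/-- Subsequences of blocks with indices above `N`. -/
def Sub (N : ℕ) (R' R : ℕ → Finset ℕ) : Prop :=
  ∃ E, Blk E ∧ (∀ i, ∀ a ∈ E i, N ≤ a) ∧ R' = fun i => RU R (E i)

theorem res_blk (F : ℕ → List ℕ → ℕ → Option ℕ) (L : List (Par × ℕ)) : Blk (Res F L) := by
  induction L with
  | nil =>
    refine ⟨fun i => ⟨i + 1, Finset.mem_singleton_self _⟩, fun i a ha b hb => ?_⟩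
    rw [Res, Finset.mem_singleton] at ha hb
    omega
  | cons a L ih =>
    rw [Res]
    unfold nxt
    split_ifs with h
    · obtain ⟨E, hE, -, h1, -⟩ := h.choose_spec
      rw [h1]
      exact ih.comp hE
    · exact ih

theorem res_pos (F : ℕ → List ℕ → ℕ → Option ℕ) (L : List (Par × ℕ)) :
    ∀ i, ∀ n ∈ Res F L i, 0 < n := by
  induction L with
  | nil =>
    intro i n hn
    rw [Res, Finset.mem_singleton] at hn
    omega
  | cons a L ih =>
    intro i n hn
    rw [Res] at hn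
    unfold nxt at hn
    split_ifs at hn with h
    · obtain ⟨E, hE, -, h1, -⟩ := h.choose_spec
      rw [h1] at hn
      obtain ⟨k, -, h2⟩ := mem_RU.1 hn
      exact ih k n h2
    · exact ih i n hn

theorem res_cons (F : ℕ → List ℕ → ℕ → Option ℕ) {a : Par × ℕ} {L : List (Par × ℕ)}
    (h : ∃ R', NoA F a.1 a.2 (Res F L) R') : NoA F a.1 a.2 (Res F L) (Res F (a :: L)) := by
  rw [Res]
  unfold nxt
  rw [dif_pos h]
  exact h.choose_spec

theorem gam_spec (F : ℕ → List ℕ → ℕ → Option ℕ) {a : Par} {t : ℕ} {R : ℕ → Finset ℕ} {K B : ℕ}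
    (h : YesA F a t R K B) : ∃ K, YesA F a t R K (gam F a t R) := by
  have h1 : ∃ B K, YesA F a t R K B := ⟨B, K, h⟩
  unfold gam
  rw [dif_pos h1]
  exact h1.choose_spec

/-- The function `g` is larger than the bounds of all questions with code at most `t`. -/
theorem exists_g (F : ℕ → List ℕ → ℕ → Option ℕ) : ∃ g : ℕ → ℕ,
    ∀ (a : Par) (L : List (Par × ℕ)), ∃ u, ∀ t ≥ u, gam F a t (Res F L) < g t := by
  obtain ⟨en, hen⟩ := exists_surjective_nat (Par × List (Par × ℕ))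
  refine ⟨fun t => 1 + ∑ u ∈ Finset.range (t + 1), gam F (en u).1 t (Res F (en u).2),
    fun a L => ?_⟩
  obtain ⟨u, hu⟩ := hen (a, L)
  refine ⟨u, fun t ht => ?_⟩
  have h1 : gam F (en u).1 t (Res F (en u).2) ≤
      ∑ u ∈ Finset.range (t + 1), gam F (en u).1 t (Res F (en u).2) :=
    Finset.single_le_sum (f := fun u => gam F (en u).1 t (Res F (en u).2))
      (fun _ _ => Nat.zero_le _) (Finset.mem_range.2 (Nat.lt_succ_of_le ht))
  rw [hu] at h1
  exact Nat.lt_one_add_iff.2 h1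

end Pool.Agent.DR
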