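import Pool.Agent.H.MP_b2838e_lc.Bas

/-!
# Module YN: the two answers
-/

namespace Pool.Agent.DR

/-- For every labelling with labels in `P` there is a family of sets of indices between `N` and `K`
with monochromatic unions which makes the functional of this colour converge, to a value of at most
`B`. -/
def Yes (F : ℕ → List ℕ → ℕ → Option ℕ) {l : ℕ} (P : Finset (Fin l)) (p : Fin l → List (Finset ℕ))
    (e : Fin l → ℕ) (N t : ℕ) (R : ℕ → Finset ℕ) (K B : ℕ) : Prop :=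
  ∀ f : Finset ℕ → Fin l, (∀ D : Finset ℕ, D.Nonempty → (∀ a ∈ D, N ≤ a) → f D ∈ P) →
    ∃ j ∈ P, ∃ q, Fam q ∧ (∀ D ∈ q, ∀ a ∈ D, N ≤ a ∧ a < K) ∧ Mono f j q ∧
      ∃ n v, v ≤ B ∧ FV (F (e j)) (wd (p j ++ q.map (RU R))) t n v

/-- In the new reservoir the functional of one colour diverges. -/
def No (F : ℕ → List ℕ → ℕ → Option ℕ) {l : ℕ} (P : Finset (Fin l)) (p : Fin l → List (Finset ℕ))
    (e : Fin l → ℕ) (N t : ℕ) (R R' : ℕ → Finset ℕ) : Prop :=
  ∃ E, Blk E ∧ (∀ i, ∀ a ∈ E i, N ≤ a) ∧ (R' = fun i => RU R (E i)) ∧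
    ∃ j ∈ P, ∀ q, Fam q → ∀ n, F (e j) (pre (wd (p j ++ q.map (RU R'))) n) t = none

end Pool.Agent.DR
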